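import Pool.Agent.R290.CF6

/-!
# MP_6efe58_an, Q1: heat smoothing into `CF(G, σ)` for every infinite group without property (T)

For every infinite group `G`, every normalized `𝕋`-valued 2-cocycle `σ` and every unbounded
`d ∈ ND₀⁺(G)` there is one `x₀ ∈ C*_r(G, σ) \ CF(G, σ)` that the heat operators of `d` send into
`CF(G, σ)` for all `t > 0`.

The Hilbert space `ℓ²(G)` with its basis `(δ_g)` is represented by a Hilbert space `H` with a
Hilbert basis `b` indexed by `G`.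
-/

namespace Pool.Agent.Results.MP_6efe58_an.HeatIntoCF

open scoped InnerProductSpace ComplexConjugate

variable {G : Type*} [Group G] {H : Type*} [NormedAddCommGroup H] [InnerProductSpace ℂ H]

/-- `σ` is a normalized `𝕋`-valued 2-cocycle -/
def IsCocycle (σ : G → G → Circle) : Prop :=
  (∀ g h k, σ g h * σ (g * h) k = σ h k * σ g (h * k)) ∧ ∀ g, σ g 1 = 1 ∧ σ 1 g = 1

/-- `Λ` is the left regular `σ`-projective representation on `H = ℓ²(G)` with basis `b = (δ_g)`: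
`Λ(g) δ_h = σ(g, h) δ_{gh}` -/
def IsRegular (b : HilbertBasis G ℂ H) (σ : G → G → Circle) (Λ : G → H →L[ℂ] H) : Prop :=
  ∀ g h, Λ g (b h) = (σ g h : ℂ) • b (g * h)

/-- the Fourier coefficient `x̂(g) = ⟨δ_g, x δ_e⟩` -/
noncomputable def coeff (b : HilbertBasis G ℂ H) (x : H →L[ℂ] H) (g : G) : ℂ := ⟪b g, x (b 1)⟫_ℂ

/-- the reduced twisted group C*-algebra: the norm closure of the span of the `Λ(g)` -/
def CstarR (Λ : G → H →L[ℂ] H) : Set (H →L[ℂ] H) :=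
  closure (Submodule.span ℂ (Set.range Λ))

/-- the elements of `C*_r(G, σ)` with operator-norm unconditionally convergent Fourier series -/
def CF (b : HilbertBasis G ℂ H) (Λ : G → H →L[ℂ] H) : Set (H →L[ℂ] H) :=
  {x | x ∈ CstarR Λ ∧ Summable fun g => coeff b x g • Λ g}

/-- `ND₀⁺(G)`: negative definite functions `d : G → [0, ∞)` with `d e = 0` -/
def ND0plus (d : G → ℝ) : Prop :=
  (∀ g, 0 ≤ d g) ∧ d 1 = 0 ∧ (∀ g, d g⁻¹ = d g) ∧
  ∀ (n : ℕ) (g : Fin n → G) (b : Fin n → ℂ), ∑ i, b i = 0 →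
    (∑ i, ∑ j, conj (b i) * b j * (d ((g i)⁻¹ * g j) : ℂ)).re ≤ 0

/-- `d` is bounded -/
def Bdd (d : G → ℝ) : Prop := ∃ C : ℝ, ∀ g, d g ≤ C

/-- property (T), in the form used in the problem -/
def PropertyT (G : Type*) [Group G] : Prop := ∀ d : G → ℝ, ND0plus d → Bdd d

/-- the map `M` is linear on the set `V` of operators (meant to be a linear space) -/
def LinearOn (V : Set (H →L[ℂ] H)) (M : (H →L[ℂ] H) → (H →L[ℂ] H)) : Prop :=
  ∀ x ∈ V, ∀ y ∈ V, ∀ c : ℂ, M (c • x + y) = c • M x + M y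

/-- the map `M` is bounded on the set `V` of operators -/
def BoundedOn (V : Set (H →L[ℂ] H)) (M : (H →L[ℂ] H) → (H →L[ℂ] H)) : Prop :=
  ∃ C : ℝ, ∀ x ∈ V, ‖M x‖ ≤ C * ‖x‖

/-- `x₀` is an element of `C*_r(G, σ)` outside `CF(G, σ)` which the heat operator of `d` at time
`t` sends into `CF(G, σ)`: there is `y ∈ CF(G, σ)` with Fourier coefficients
`e^{-t d(g)} x̂₀(g)`, and every map `M` on operators that is linear and bounded on `C*_r(G, σ)`
(such as the heat operator, defined on `vN(G, σ) ⊇ C*_r(G, σ)`) and satisfies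
`M (Λ(g)) = e^{-t d(g)} Λ(g)` for all `g` maps `x₀` into `CF(G, σ)`. -/
def HeatSends (b : HilbertBasis G ℂ H) (Λ : G → H →L[ℂ] H) (d : G → ℝ) (x₀ : H →L[ℂ] H)
    (t : ℝ) : Prop :=
  x₀ ∈ CstarR Λ ∧ x₀ ∉ CF b Λ ∧
  (∃ y ∈ CF b Λ, ∀ g, coeff b y g = (Real.exp (-t * d g) : ℂ) * coeff b x₀ g) ∧
  ∀ M : (H →L[ℂ] H) → (H →L[ℂ] H), LinearOn (CstarR Λ) M → BoundedOn (CstarR Λ) M →
    (∀ g, M (Λ g) = (Real.exp (-t * d g) : ℂ) • Λ g) → M x₀ ∈ CF b Λ

lemma hat_eq_coeff (b : HilbertBasis G ℂ H) (σ : G → G → Circle) (hσ : IsCocycle σ)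
    (Λ : G → H →L[ℂ] H) (hΛ : IsRegular b σ Λ) (x : H →L[ℂ] H) (g : G) :
    R290.CF.hat Λ (b 1) x g = coeff b x g := by
  unfold R290.CF.hat coeff
  rw [hΛ, (hσ.2 g).1, mul_one, Circle.coe_one, one_smul]

lemma quasi {d : G → ℝ} (hd : ND0plus d) (h g : G) : d h ≤ 2 * d (h * g) + 2 * d g := by
  obtain ⟨h0, h1, h2, h3⟩ := hd
  have h4 := h3 3 ![(h * g)⁻¹, g⁻¹, 1] ![1, 1, -2] (by
    rw [Fin.sum_univ_three]
    simp
    norm_num)
  simp only [Fin.sum_univ_three] at h4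
  simp only [Matrix.cons_val_zero, Matrix.cons_val_one, Matrix.cons_val_two, Matrix.head_cons,
    Matrix.tail_cons] at h4
  have e1 : ((h * g)⁻¹)⁻¹ * (h * g)⁻¹ = 1 := by group
  have e2 : ((h * g)⁻¹)⁻¹ * g⁻¹ = h := by group
  have e3 : (g⁻¹)⁻¹ * (h * g)⁻¹ = h⁻¹ := by group
  have e4 : (g⁻¹)⁻¹ * g⁻¹ = 1 := by group
  have e5 : ((h * g)⁻¹)⁻¹ * 1 = h * g := by group
  have e6 : (g⁻¹)⁻¹ * 1 = g := by group
  have e7 : (1 : G)⁻¹ * (h * g)⁻¹ = (h * g)⁻¹ := by group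
  have e8 : (1 : G)⁻¹ * g⁻¹ = g⁻¹ := by group
  have e9 : (1 : G)⁻¹ * 1 = 1 := by group
  rw [e1, e2, e3, e4, e5, e6, e7, e8, e9, h1, h2, h2, h2] at h4
  simp at h4
  linarith

lemma key [Infinite G] [CompleteSpace H] (b : HilbertBasis G ℂ H) (σ : G → G → Circle)
    (hσ : IsCocycle σ) (Λ : G → H →L[ℂ] H) (hΛ : IsRegular b σ Λ) (d : G → ℝ)
    (hd : ND0plus d) (hb : ¬ Bdd d) : ∃ x₀, ∀ t : ℝ, 0 < t → HeatSends b Λ d x₀ t := by
  have S := R290.CF.sys_of_basis b σ hσ.1 hσ.2 Λ hΛ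
  have hd2 : ∀ R : ℝ, ∃ g, R ≤ d g := by
    intro R
    by_contra hcon
    push Not at hcon
    exact hb ⟨R, fun g => (hcon g).le⟩
  obtain ⟨x, hx1, hx2, hx3⟩ := S.abstract_main d hd.1 (quasi hd) hd2
  simp only [hat_eq_coeff b σ hσ Λ hΛ] at hx2 hx3
  refine ⟨x, fun t ht => ⟨hx1, fun h => hx2 h.2, ?_, ?_⟩⟩
  · obtain ⟨y, hy1, hy2, hy3⟩ := (hx3 t ht).1
    exact ⟨y, ⟨hy1, hy2⟩, hy3⟩
  · intro M hM hMb hMg
    have hz : (0 : H →L[ℂ] H) ∈ CstarR Λ := subset_closure (Submodule.zero_mem _)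
    have h0 : M 0 = 0 := by
      have := hM 0 hz 0 hz 1
      rw [one_smul, one_smul, add_zero] at this
      exact left_eq_add.1 this
    refine (hx3 t ht).2 (Submodule.span ℂ (Set.range Λ)).topologicalClosure le_rfl M
      (fun a ha b hb => ?_) (fun c a ha => ?_) hMb hMg
    · have := hM a ha b hb 1
      rwa [one_smul, one_smul] at this
    · have := hM a ha 0 hz c
      rwa [add_zero, h0, add_zero] at this

/-- **The answer to Q1 is yes.** Let `G` be a (countably) infinite group, `σ` a normalized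
2-cocycle, and let `H` be `ℓ²(G)`, that is, a Hilbert space with an orthonormal basis indexed by
`G`. The operators `Λ(g)` exist (and are unique). For every unbounded `d ∈ ND₀⁺(G)` there is one
`x₀ ∈ C*_r(G, σ) \ CF(G, σ)` sent into `CF(G, σ)` by the heat operators of `d` for all `t > 0`.
In particular, if `G` does not have property (T), there are `d ∈ ND₀⁺(G)` and `x₀` with this
property. -/
theorem result {G : Type*} [Group G] [Infinite G] {H : Type*} [NormedAddCommGroup H]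
    [InnerProductSpace ℂ H] [CompleteSpace H] (b : HilbertBasis G ℂ H) (σ : G → G → Circle)
    (hσ : IsCocycle σ) :
    (∃ Λ : G → H →L[ℂ] H, IsRegular b σ Λ) ∧
    ∀ Λ : G → H →L[ℂ] H, IsRegular b σ Λ →
      (∀ d : G → ℝ, ND0plus d → ¬ Bdd d → ∃ x₀, ∀ t : ℝ, 0 < t → HeatSends b Λ d x₀ t) ∧
      (¬ PropertyT G →
        ∃ d : G → ℝ, ND0plus d ∧ ∃ x₀, ∀ t : ℝ, 0 < t → HeatSends b Λ d x₀ t) := by
  refine ⟨⟨R290.CF.LamB b σ, R290.CF.LamB_basis b σ⟩, fun Λ hΛ => ⟨key b σ hσ Λ hΛ, fun hT => ?_⟩⟩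
  unfold PropertyT at hT
  push Not at hT
  obtain ⟨d, hd, hb⟩ := hT
  exact ⟨d, hd, key b σ hσ Λ hΛ d hd hb⟩

end Pool.Agent.Results.MP_6efe58_an.HeatIntoCF
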